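import Mathlib

/-! A smooth positive definite kernel with vanishing integral, and trigonometric sums. -/

set_option autoImplicit false

open Set MeasureTheory

namespace Pool.Agent.X101.ZG

/-- the weight `t⁴ (1 - t)⁴` -/
noncomputable def gg (t : ℝ) : ℝ := t ^ 4 * (1 - t) ^ 4

/-- the kernel -/
noncomputable def rr (x : ℝ) : ℝ := 2 * ∫ t in (0 : ℝ)..1, gg t * Real.cos (2 * Real.pi * x * t)

/-- `e(x) = exp(2 π i x)` -/
noncomputable def e (x : ℝ) : ℂ := Complex.exp (((2 * Real.pi * x : ℝ) : ℂ) * Complex.I)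

lemma e_norm (x : ℝ) : ‖e x‖ = 1 := Complex.norm_exp_ofReal_mul_I _

lemma e_add (x y : ℝ) : e (x + y) = e x * e y := by
  unfold e
  rw [← Complex.exp_add]
  congr 1
  push_cast
  ring

lemma e_nat (x : ℝ) (n : ℕ) : e (x * n) = e x ^ n := by
  unfold e
  rw [← Complex.exp_nat_mul]
  congr 1
  push_cast
  ring

lemma e_cont : Continuous e := by
  unfold e
  fun_prop

lemma gg_cont : Continuous gg := by unfold gg; fun_prop

lemma gg_nonneg (t : ℝ) : 0 ≤ gg t := by unfold gg; positivity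

lemma gg_le {t : ℝ} (h0 : 0 ≤ t) (h1 : t ≤ 1) : gg t ≤ t ^ 4 := by
  unfold gg
  have h2 : (1 - t) ^ 4 ≤ 1 := pow_le_one₀ (by linarith) (by linarith)
  have h3 : 0 ≤ t ^ 4 := by positivity
  nlinarith

lemma gg_le_one {t : ℝ} (h0 : 0 ≤ t) (h1 : t ≤ 1) : gg t ≤ 1 :=
  (gg_le h0 h1).trans (pow_le_one₀ h0 h1)

lemma rr_even (x : ℝ) : rr (-x) = rr x := by
  unfold rr
  congr 1
  apply intervalIntegral.integral_congr
  intro t _
  simp only
  rw [show 2 * Real.pi * -x * t = -(2 * Real.pi * x * t) by ring, Real.cos_neg]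

lemma rr_le_two (x : ℝ) : |rr x| ≤ 2 := by
  unfold rr
  rw [abs_mul, abs_two]
  have h := intervalIntegral.norm_integral_le_of_norm_le_const (a := 0) (b := 1) (C := 1)
    (f := fun t => gg t * Real.cos (2 * Real.pi * x * t)) (fun t ht => by
      rw [uIoc_of_le zero_le_one] at ht
      rw [Real.norm_eq_abs, abs_mul, abs_of_nonneg (gg_nonneg t)]
      calc gg t * |Real.cos (2 * Real.pi * x * t)| ≤ 1 * 1 :=
            mul_le_mul (gg_le_one ht.1.le ht.2) (Real.abs_cos_le_one _) (abs_nonneg _) zero_le_one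
        _ = 1 := one_mul 1)
  rw [Real.norm_eq_abs] at h
  norm_num at h
  linarith

/-- the polynomial whose fourth derivative is used -/
lemma ibp (w : ℝ) (hw : w ≠ 0) :
    ∫ t in (0 : ℝ)..1, gg t * Real.cos (w * t) =
      (1 / w ^ 4) * ∫ t in (0 : ℝ)..1, (24 - 480 * t + 2160 * t ^ 2 - 3360 * t ^ 3 + 1680 * t ^ 4) *
        Real.cos (w * t) := by
  set P0 : ℝ → ℝ := fun t => t ^ 4 - 4 * t ^ 5 + 6 * t ^ 6 - 4 * t ^ 7 + t ^ 8 with hP0
  set P1 : ℝ → ℝ := fun t => 4 * t ^ 3 - 20 * t ^ 4 + 36 * t ^ 5 - 28 * t ^ 6 + 8 * t ^ 7 with hP1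
  set P2 : ℝ → ℝ := fun t => 12 * t ^ 2 - 80 * t ^ 3 + 180 * t ^ 4 - 168 * t ^ 5 + 56 * t ^ 6 with hP2
  set P3 : ℝ → ℝ := fun t => 24 * t - 240 * t ^ 2 + 720 * t ^ 3 - 840 * t ^ 4 + 336 * t ^ 5 with hP3
  set P4 : ℝ → ℝ := fun t => 24 - 480 * t + 2160 * t ^ 2 - 3360 * t ^ 3 + 1680 * t ^ 4 with hP4
  have d0 : ∀ t, HasDerivAt P0 (P1 t) t := by
    intro t
    have h := ((((hasDerivAt_pow 4 t).sub ((hasDerivAt_pow 5 t).const_mul 4)).add
      ((hasDerivAt_pow 6 t).const_mul 6)).sub ((hasDerivAt_pow 7 t).const_mul 4)).add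
      (hasDerivAt_pow 8 t)
    refine h.congr_deriv ?_
    simp only [hP1]; push_cast; ring
  have d1 : ∀ t, HasDerivAt P1 (P2 t) t := by
    intro t
    have h := (((((hasDerivAt_pow 3 t).const_mul 4).sub ((hasDerivAt_pow 4 t).const_mul 20)).add
      ((hasDerivAt_pow 5 t).const_mul 36)).sub ((hasDerivAt_pow 6 t).const_mul 28)).add
      ((hasDerivAt_pow 7 t).const_mul 8)
    refine h.congr_deriv ?_
    simp only [hP2]; push_cast; ring
  have d2 : ∀ t, HasDerivAt P2 (P3 t) t := by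
    intro t
    have h := (((((hasDerivAt_pow 2 t).const_mul 12).sub ((hasDerivAt_pow 3 t).const_mul 80)).add
      ((hasDerivAt_pow 4 t).const_mul 180)).sub ((hasDerivAt_pow 5 t).const_mul 168)).add
      ((hasDerivAt_pow 6 t).const_mul 56)
    refine h.congr_deriv ?_
    simp only [hP3]; push_cast; ring
  have d3 : ∀ t, HasDerivAt P3 (P4 t) t := by
    intro t
    have h := (((((hasDerivAt_id t).const_mul 24).sub ((hasDerivAt_pow 2 t).const_mul 240)).add
      ((hasDerivAt_pow 3 t).const_mul 720)).sub ((hasDerivAt_pow 4 t).const_mul 840)).add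
      ((hasDerivAt_pow 5 t).const_mul 336)
    refine (h.congr_deriv ?_)
    simp only [hP4]; push_cast; ring
  have dl : ∀ t, HasDerivAt (fun t : ℝ => w * t) w t := by
    intro t
    simpa using (hasDerivAt_id t).const_mul w
  have ds : ∀ t, HasDerivAt (fun t : ℝ => Real.sin (w * t)) (Real.cos (w * t) * w) t := fun t =>
    (Real.hasDerivAt_sin _).comp t (dl t)
  have dc : ∀ t, HasDerivAt (fun t : ℝ => Real.cos (w * t)) (-Real.sin (w * t) * w) t := fun t =>
    (Real.hasDerivAt_cos _).comp t (dl t)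
  set Φ : ℝ → ℝ := fun t => P0 t * Real.sin (w * t) * (1 / w) + P1 t * Real.cos (w * t) * (1 / w ^ 2) -
    P2 t * Real.sin (w * t) * (1 / w ^ 3) - P3 t * Real.cos (w * t) * (1 / w ^ 4) with hΦ
  have hd : ∀ t, HasDerivAt Φ (P0 t * Real.cos (w * t) - (1 / w ^ 4) * (P4 t * Real.cos (w * t))) t := by
    intro t
    have h := (((((d0 t).mul (ds t)).mul_const (1 / w)).add
      (((d1 t).mul (dc t)).mul_const (1 / w ^ 2))).sub
      (((d2 t).mul (ds t)).mul_const (1 / w ^ 3))).sub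
      (((d3 t).mul (dc t)).mul_const (1 / w ^ 4))
    refine h.congr_deriv ?_
    field_simp
    ring
  have hc0 : Continuous (fun t => P0 t * Real.cos (w * t)) := by
    simp only [hP0]; fun_prop
  have hc4 : Continuous (fun t => (1 / w ^ 4) * (P4 t * Real.cos (w * t))) := by
    simp only [hP4]; fun_prop
  have hI := intervalIntegral.integral_eq_sub_of_hasDerivAt (a := 0) (b := 1)
    (fun t _ => hd t) ((hc0.sub hc4).intervalIntegrable _ _)
  rw [intervalIntegral.integral_sub (hc0.intervalIntegrable _ _) (hc4.intervalIntegrable _ _),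
    intervalIntegral.integral_const_mul] at hI
  have e0 : Φ 0 = 0 := by simp [hΦ, hP0, hP1, hP2, hP3]
  have e1 : Φ 1 = 0 := by
    simp only [hΦ, hP0, hP1, hP2, hP3]; ring
  rw [e0, e1] at hI
  have e2 : ∫ t in (0 : ℝ)..1, gg t * Real.cos (w * t) = ∫ t in (0 : ℝ)..1, P0 t * Real.cos (w * t) := by
    apply intervalIntegral.integral_congr
    intro t _
    simp only [gg, hP0]
    ring
  rw [e2]
  linarith

lemma rr_four (x : ℝ) : |rr x| * x ^ 4 ≤ 15408 := by
  by_cases hx : x = 0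
  · subst hx; norm_num
  have hpi := Real.pi_gt_three
  have hw : 2 * Real.pi * x ≠ 0 := by positivity
  unfold rr
  rw [ibp (2 * Real.pi * x) hw, abs_mul, abs_two, abs_mul]
  have h := intervalIntegral.norm_integral_le_of_norm_le_const (a := 0) (b := 1) (C := 7704)
    (f := fun t => (24 - 480 * t + 2160 * t ^ 2 - 3360 * t ^ 3 + 1680 * t ^ 4) *
        Real.cos (2 * Real.pi * x * t)) (fun t ht => by
      rw [uIoc_of_le zero_le_one] at ht
      have ht0 := ht.1.le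
      have ht1 := ht.2
      rw [Real.norm_eq_abs, abs_mul]
      have h1 : |24 - 480 * t + 2160 * t ^ 2 - 3360 * t ^ 3 + 1680 * t ^ 4| ≤ 7704 := by
        have a2 : t ^ 2 ≤ 1 := pow_le_one₀ ht0 ht1
        have a3 : t ^ 3 ≤ 1 := pow_le_one₀ ht0 ht1
        have a4 : t ^ 4 ≤ 1 := pow_le_one₀ ht0 ht1
        have b2 : 0 ≤ t ^ 2 := by positivity
        have b3 : 0 ≤ t ^ 3 := by positivity
        have b4 : 0 ≤ t ^ 4 := by positivity
        rw [abs_le]
        constructor <;> linarith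
      calc _ ≤ 7704 * 1 := mul_le_mul h1 (Real.abs_cos_le_one _) (abs_nonneg _) (by norm_num)
        _ = 7704 := by ring)
  rw [Real.norm_eq_abs] at h
  norm_num at h
  have hx4 : 0 < x ^ 4 := by positivity
  have h2 : |1 / (2 * Real.pi * x) ^ 4| * x ^ 4 ≤ 1 := by
    rw [abs_of_nonneg (by positivity), mul_pow, div_mul_eq_mul_div, one_mul,
      div_le_one (by positivity)]
    have h3 : (1 : ℝ) ≤ (2 * Real.pi) ^ 4 := one_le_pow₀ (by linarith)
    nlinarith
  have h4 : 0 ≤ |1 / (2 * Real.pi * x) ^ 4| := abs_nonneg _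
  set I := ∫ t in (0 : ℝ)..1, (24 - 480 * t + 2160 * t ^ 2 - 3360 * t ^ 3 + 1680 * t ^ 4) *
        Real.cos (2 * Real.pi * x * t) with hI
  calc 2 * (|1 / (2 * Real.pi * x) ^ 4| * |I|) * x ^ 4
      = 2 * |I| * (|1 / (2 * Real.pi * x) ^ 4| * x ^ 4) := by ring
    _ ≤ 2 * 7704 * 1 := by
        apply mul_le_mul _ h2 (by positivity) (by norm_num)
        linarith
    _ = 15408 := by norm_num

lemma rr_decay (x : ℝ) : |rr x| ≤ 15410 / (1 + x ^ 4) := by
  rw [le_div_iff₀ (by positivity)]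
  have h1 := rr_le_two x
  have h2 := rr_four x
  linarith

/-- positive definiteness -/
lemma rr_sum (I : Finset ℕ) (μ : ℝ) (x : ℕ → ℝ) :
    ∑ i ∈ I, ∑ j ∈ I, rr (μ * (x i - x j)) =
      2 * ∫ t in (0 : ℝ)..1, gg t * ‖∑ i ∈ I, e (μ * t * x i)‖ ^ 2 := by
  have h1 : ∀ t : ℝ, ‖∑ i ∈ I, e (μ * t * x i)‖ ^ 2 =
      ∑ i ∈ I, ∑ j ∈ I, Real.cos (2 * Real.pi * (μ * (x i - x j)) * t) := by
    intro t
    have h2 : ((‖∑ i ∈ I, e (μ * t * x i)‖ ^ 2 : ℝ) : ℂ) =
        ∑ i ∈ I, ∑ j ∈ I, e (μ * t * x i) * (starRingEnd ℂ) (e (μ * t * x j)) := by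
      push_cast
      rw [← Complex.mul_conj', map_sum, Finset.sum_mul_sum]
    have h3 := congrArg Complex.re h2
    rw [Complex.ofReal_re] at h3
    rw [h3, Complex.re_sum]
    refine Finset.sum_congr rfl fun i _ => ?_
    rw [Complex.re_sum]
    refine Finset.sum_congr rfl fun j _ => ?_
    have h4 : e (μ * t * x i) * (starRingEnd ℂ) (e (μ * t * x j)) =
        Complex.exp (((2 * Real.pi * (μ * (x i - x j)) * t : ℝ) : ℂ) * Complex.I) := by
      unfold e
      rw [← Complex.exp_conj, map_mul, Complex.conj_ofReal, Complex.conj_I, ← Complex.exp_add]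
      congr 1
      push_cast
      ring
    rw [h4, Complex.exp_ofReal_mul_I_re]
  unfold rr
  simp_rw [h1, Finset.mul_sum]
  rw [intervalIntegral.integral_finsetSum]
  · rw [Finset.mul_sum]
    refine Finset.sum_congr rfl fun i _ => ?_
    rw [intervalIntegral.integral_finsetSum]
    · rw [Finset.mul_sum]
    · intro j _
      apply Continuous.intervalIntegrable
      have := gg_cont
      fun_prop
  · intro i _
    apply Continuous.intervalIntegrable
    have := gg_cont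
    fun_prop

/-- geometric sums -/
lemma geo (R : Finset ℂ) (hR : ∀ ρ ∈ R, ‖ρ‖ = 1) : ∃ μ0 : ℝ, 0 < μ0 ∧ μ0 ≤ 1 / 2 ∧ ∀ ρ ∈ R, ∀ x : ℝ,
    0 < x → x ≤ μ0 → ∀ L : ℕ, ‖∑ i ∈ Finset.range L, (ρ * e x) ^ i‖ ≤ 2 / x := by
  classical
  have hpi := Real.pi_gt_three
  have key : ∃ m : ℝ, 0 < m ∧ ∀ ρ ∈ R, ρ ≠ 1 → m ≤ ‖1 - ρ‖ := by
    by_cases hne : (R.filter (fun ρ => ρ ≠ 1)).Nonempty
    · obtain ⟨ρ0, h0, h1⟩ := Finset.exists_min_image _ (fun ρ => ‖1 - ρ‖) hne
      refine ⟨‖1 - ρ0‖, ?_, fun ρ hρ hρ1 => h1 ρ (Finset.mem_filter.2 ⟨hρ, hρ1⟩)⟩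
      rw [norm_pos_iff, sub_ne_zero]
      exact fun h => (Finset.mem_filter.1 h0).2 h.symm
    · refine ⟨1, one_pos, fun ρ hρ hρ1 => ?_⟩
      exact absurd ⟨ρ, Finset.mem_filter.2 ⟨hρ, hρ1⟩⟩ hne
  obtain ⟨m, hm, hmin⟩ := key
  refine ⟨min (1 / 2) (m / (4 * Real.pi)), lt_min (by norm_num) (by positivity), min_le_left _ _, ?_⟩
  intro ρ hρ x hx hx1 L
  have hx2 : x ≤ 1 / 2 := hx1.trans (min_le_left _ _)
  have hx3 : x ≤ m / (4 * Real.pi) := hx1.trans (min_le_right _ _)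
  have hnorm : ‖1 - e x‖ = 2 * |Real.sin (Real.pi * x)| := by
    have h1 : ‖1 - e x‖ ^ 2 = (2 * |Real.sin (Real.pi * x)|) ^ 2 := by
      rw [← Complex.normSq_eq_norm_sq, Complex.normSq_apply]
      unfold e
      rw [Complex.sub_re, Complex.sub_im, Complex.exp_ofReal_mul_I_re, Complex.exp_ofReal_mul_I_im,
        mul_pow, sq_abs]
      simp only [Complex.one_re, Complex.one_im]
      rw [show 2 * Real.pi * x = 2 * (Real.pi * x) by ring, Real.cos_two_mul, Real.sin_two_mul]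
      have h2 := Real.sin_sq_add_cos_sq (Real.pi * x)
      have h3 : Real.cos (Real.pi * x) ^ 2 = 1 - Real.sin (Real.pi * x) ^ 2 := by linarith
      calc _ = (2 - 2 * Real.cos (Real.pi * x) ^ 2) ^ 2 +
            4 * Real.sin (Real.pi * x) ^ 2 * Real.cos (Real.pi * x) ^ 2 := by ring
        _ = _ := by rw [h3]; ring
    exact (pow_left_inj₀ (norm_nonneg _) (by positivity) two_ne_zero).1 h1
  have hlow : x ≤ ‖1 - ρ * e x‖ := by
    by_cases h1 : ρ = 1
    · rw [h1, one_mul, hnorm]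
      have h2 := Real.mul_le_sin (x := Real.pi * x) (by positivity) (by nlinarith)
      have h3 : 2 / Real.pi * (Real.pi * x) = 2 * x := by field_simp
      rw [h3] at h2
      have h4 := le_abs_self (Real.sin (Real.pi * x))
      linarith
    · have h2 := hmin ρ hρ h1
      have h3 : ‖1 - e x‖ ≤ 2 * Real.pi * x := by
        rw [hnorm]
        have h4 : |Real.sin (Real.pi * x)| ≤ |Real.pi * x| := Real.abs_sin_le_abs
        rw [abs_of_pos (show 0 < Real.pi * x by positivity)] at h4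
        linarith
      have h5 : ‖1 - ρ‖ ≤ ‖1 - ρ * e x‖ + ‖1 - e x‖ := by
        have h6 : (1 - ρ) = (1 - ρ * e x) - ρ * (1 - e x) := by ring
        calc ‖1 - ρ‖ = ‖(1 - ρ * e x) - ρ * (1 - e x)‖ := by rw [← h6]
          _ ≤ ‖1 - ρ * e x‖ + ‖ρ * (1 - e x)‖ := norm_sub_le _ _
          _ = _ := by rw [norm_mul, hR ρ hρ, one_mul]
      have h6 : x * (4 * Real.pi) ≤ m := by rwa [le_div_iff₀ (by positivity)] at hx3
      nlinarith
  have hz1 : ‖ρ * e x‖ = 1 := by rw [norm_mul, hR ρ hρ, e_norm, one_mul]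
  have hne : ρ * e x ≠ 1 := by
    intro h
    rw [h, sub_self, norm_zero] at hlow
    linarith
  rw [geom_sum_eq hne, norm_div]
  have h7 : ‖(ρ * e x) ^ L - 1‖ ≤ 2 := by
    calc ‖(ρ * e x) ^ L - 1‖ ≤ ‖(ρ * e x) ^ L‖ + ‖(1 : ℂ)‖ := norm_sub_le _ _
      _ = 2 := by rw [norm_pow, hz1, one_pow, norm_one]; norm_num
  have h8 : x ≤ ‖ρ * e x - 1‖ := by rwa [norm_sub_rev]
  gcongr

end Pool.Agent.X101.ZG
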